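import Pool.Agent.TH476.KStm

/-!
# Embedding the blowup with the moves (`S_EMB`)
-/

set_option autoImplicit false

open Classical

namespace Pool.Agent.TH476.KK.EmbB

open Pool.Agent.TH476

variable {k : ℕ} {ι : Type}

/-- unions of whole segments containing the child of the top -/
structure Cl (T : TE k ι) (s0 : ι) (U : Finset ι) : Prop where
  top : T.top ∉ U
  mem : s0 ∈ U
  par : ∀ x ∈ U, x ≠ s0 → T.par x ∈ U
  fr : ∀ x ∈ U, ¬ T.Cn x → ∀ y, y ≠ T.top → T.par y = x → y ∈ U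

/-- a segment g 1, .., g m after the centre g 0 -/
structure Seg (T : TE k ι) (U : Finset ι) (s : ι) (m : ℕ) (g : ℕ → ι) : Prop where
  g0 : g 0 = s
  m1 : 1 ≤ m
  par : ∀ i, i < m → T.par (g (i + 1)) = g i
  ne : ∀ i, 1 ≤ i → i ≤ m → g i ≠ T.top
  ix : ∀ i, 1 ≤ i → i ≤ m → (if T.Cn (g i) then k + 1 else T.ps (g i)) = i
  out : ∀ i, 1 ≤ i → i ≤ m → g i ∉ U
  ch : ∀ i, 1 ≤ i → i ≤ m → ¬ T.Cn (g i) → ∀ y, y ≠ T.top → T.par y = g i →
    ∃ j, 1 ≤ j ∧ j ≤ m ∧ y = g j
  qn : ∀ i, 1 ≤ i → i ≤ m → T.Qn (g i) → i = m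

/-- the child of a node -/
noncomputable def chd (T : TE k ι) (x : ι) : ι :=
  if h : ∃ y, y ≠ T.top ∧ T.par y = x then h.choose else x

lemma chd_spec (T : TE k ι) (x : ι) (h1 : x ≠ T.top) (h2 : ¬ T.Cn x) (h3 : ¬ T.Ln x) :
    chd T x ≠ T.top ∧ T.par (chd T x) = x := by
  unfold chd
  rw [dif_pos (T.chd x h1 h2 h3)]
  exact (T.chd x h1 h2 h3).choose_spec

/-- the segment starting at x -/
noncomputable def gs (T : TE k ι) (s x : ι) : ℕ → ι
  | 0 => s
  | 1 => x
  | (i + 2) => chd T (gs T s x (i + 1))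

lemma gs_spec (T : TE k ι) (s x : ι) (hx : x ≠ T.top) (hs : T.Cn s)
    (hp : T.par x = s) (hxc : ¬ T.Cn x) : ∀ i, i + 1 ≤ k → gs T s x (i + 1) ≠ T.top ∧
      ¬ T.Cn (gs T s x (i + 1)) ∧ T.ps (gs T s x (i + 1)) = i + 1 ∧
      (T.lg (gs T s x (i + 1)) ↔ T.lg x) ∧ T.par (gs T s x (i + 1)) = gs T s x i := by
  intro i
  induction i with
  | zero =>
    intro _
    refine ⟨hx, hxc, ?_, Iff.rfl, hp⟩
    show T.ps x = 0 + 1
    rw [(T.N_ps x hx hxc).1, hp, T.C_ps s hs]
  | succ i ih =>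
    intro hi
    obtain ⟨h1, h2, h3, h4, h5⟩ := ih (by omega)
    have h6 : ¬ T.Ln (gs T s x (i + 1)) := by
      intro h
      have := ((T.L_iff _).1 h).2.2
      omega
    obtain ⟨h7, h8⟩ := chd_spec T _ h1 h2 h6
    have h9 : gs T s x (i + 1 + 1) = chd T (gs T s x (i + 1)) := rfl
    rw [h9]
    have h10 : ¬ T.Cn (chd T (gs T s x (i + 1))) := by
      intro h
      have := (T.C_par _ h (by rw [h8]; exact h1)).2.2.1
      rw [h8] at this
      omega
    refine ⟨h7, h10, ?_, ?_, h8⟩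
    · rw [(T.N_ps _ h7 h10).1, h8, h3]
    · rw [T.N_lg _ h7 h10 (by rw [h8]; exact h2), h8, h4]

/-- existence of a segment -/
lemma exists_seg [Fintype ι] (T : TE k ι) (hk : 1 ≤ k) (s0 : ι) (hs0 : T.par s0 = T.top)
    (U : Finset ι) (hU : Cl T s0 U) (hne : U ≠ Finset.univ.erase T.top)
    (huniq : ∀ x, x ≠ T.top → T.par x = T.top → x = s0) :
    ∃ (s : ι) (m : ℕ) (g : ℕ → ι), s ∈ U ∧ T.Cn s ∧ Seg T U s m g ∧
      ((m = k ∧ T.Ln (g m) ∧ ¬ T.Cn (g m)) ∨ (m = k + 1 ∧ T.Cn (g m))) := by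
  -- a node outside U of smallest depth
  have h1 : ((Finset.univ.erase T.top) \ U).Nonempty := by
    rw [Finset.sdiff_nonempty]
    intro h
    apply hne
    refine Finset.Subset.antisymm ?_ h
    intro x hx
    exact Finset.mem_erase.2 ⟨fun h' => hU.top (h' ▸ hx), Finset.mem_univ _⟩
  obtain ⟨x, hx, hmin⟩ := Finset.exists_min_image _ T.dp h1
  obtain ⟨hx1, hx2⟩ := Finset.mem_sdiff.1 hx
  have hxt : x ≠ T.top := (Finset.mem_erase.1 hx1).1
  have hpt : T.par x ≠ T.top := by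
    intro h
    exact hx2 (huniq x hxt h ▸ hU.mem)
  have hpU : T.par x ∈ U := by
    by_contra h
    have h2 := hmin (T.par x) (Finset.mem_sdiff.2 ⟨Finset.mem_erase.2 ⟨hpt, Finset.mem_univ _⟩, h⟩)
    have := T.dp_par x hxt
    omega
  have hpC : T.Cn (T.par x) := by
    by_contra h
    exact hx2 (hU.fr _ hpU h x hxt rfl)
  have hxC : ¬ T.Cn x := by
    intro h
    exact (T.C_par x h hpt).1 hpC
  obtain ⟨s, hs⟩ : ∃ s, s = T.par x := ⟨_, rfl⟩
  rw [← hs] at hpt hpU hpC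
  have hg := gs_spec T s x hxt hpC hs.symm hxC
  have hg' : ∀ i, 1 ≤ i → i ≤ k → gs T s x i ≠ T.top ∧
      ¬ T.Cn (gs T s x i) ∧ T.ps (gs T s x i) = i ∧
      (T.lg (gs T s x i) ↔ T.lg x) ∧ T.par (gs T s x i) = gs T s x (i - 1) := by
    intro i hi hik
    obtain ⟨j, rfl⟩ : ∃ j, i = j + 1 := ⟨i - 1, by omega⟩
    exact hg j hik
  have hout : ∀ i, 1 ≤ i → i ≤ k → gs T s x i ∉ U := by
    intro i hi
    induction i, hi using Nat.le_induction with
    | base => intro _; exact hx2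
    | succ i hi ih =>
      intro hik h
      apply ih (by omega)
      obtain ⟨_, _, _, _, h3⟩ := hg i hik
      rw [← h3]
      refine hU.par _ h ?_
      intro h4
      rw [h4, hs0] at h3
      exact (hg' i hi (by omega)).1 h3.symm
  by_cases hlg : T.lg x
  · -- a leg
    refine ⟨s, k, gs T s x, hpU, hpC, ⟨rfl, hk, ?_, ?_, ?_, hout, ?_, ?_⟩, Or.inl ⟨rfl, ?_, ?_⟩⟩
    · intro i hi
      exact (hg i hi).2.2.2.2
    · intro i hi hik
      exact (hg' i hi hik).1
    · intro i hi hik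
      rw [if_neg (hg' i hi hik).2.1]
      exact (hg' i hi hik).2.2.1
    · intro i hi hik _ y hy hpy
      obtain ⟨h1, h2, h3, h4, h5⟩ := hg' i hi hik
      rcases Nat.lt_or_ge i k with hlt | hge
      · obtain ⟨h6, h7, h8, h9, h10⟩ := hg i hlt
        exact ⟨i + 1, by omega, hlt, T.one _ _ _ h1 h2 hy h6 hpy h10⟩
      · exfalso
        have hik' : i = k := le_antisymm hik hge
        by_cases hyC : T.Cn y
        · exact (T.C_par y hyC (by rw [hpy]; exact h1)).2.1 (by rw [hpy]; exact h4.2 hlg)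
        · have h6 := T.N_ps y hy hyC
          rw [hpy, h3] at h6
          omega
    · intro i hi hik hQ
      obtain ⟨h1, h2, h3, h4, h5⟩ := hg' i hi hik
      rcases hQ with h | h
      · exact absurd h h2
      · rw [← h3]
        exact ((T.L_iff _).1 h).2.2
    · exact (T.L_iff _).2 ⟨(hg' k hk le_rfl).1, (hg' k hk le_rfl).2.2.2.1.2 hlg,
        (hg' k hk le_rfl).2.2.1⟩
    · exact (hg' k hk le_rfl).2.1
  · -- a connection
    obtain ⟨a1, a2, a3, a4, a5⟩ := hg' k hk le_rfl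
    have a6 : ¬ T.Ln (gs T s x k) := by
      intro h
      exact hlg (a4.1 ((T.L_iff _).1 h).2.1)
    obtain ⟨b1, b2⟩ := chd_spec T _ a1 a2 a6
    have b3 : gs T s x (k + 1) = chd T (gs T s x k) := by
      obtain ⟨j, rfl⟩ : ∃ j, k = j + 1 := ⟨k - 1, by omega⟩
      rfl
    have b4 : T.Cn (gs T s x (k + 1)) := by
      rw [b3]
      by_contra h
      have h6 := T.N_ps _ b1 h
      rw [b2, a3] at h6
      omega
    rw [← b3] at b1 b2
    refine ⟨s, k + 1, gs T s x, hpU, hpC, ⟨rfl, by omega, ?_, ?_, ?_, ?_, ?_, ?_⟩,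
      Or.inr ⟨rfl, b4⟩⟩
    · intro i hi
      rcases Nat.lt_or_ge i k with hlt | hge
      · exact (hg i hlt).2.2.2.2
      · have : i = k := by omega
        subst this
        exact b2
    · intro i hi hik
      rcases Nat.lt_or_ge k i with hlt | hge
      · have : i = k + 1 := by omega
        subst this
        exact b1
      · exact (hg' i hi hge).1
    · intro i hi hik
      rcases Nat.lt_or_ge k i with hlt | hge
      · have : i = k + 1 := by omega
        subst this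
        rw [if_pos b4]
      · rw [if_neg (hg' i hi hge).2.1]
        exact (hg' i hi hge).2.2.1
    · intro i hi hik
      rcases Nat.lt_or_ge k i with hlt | hge
      · have : i = k + 1 := by omega
        subst this
        intro h
        apply hout k hk le_rfl
        rw [← b2]
        refine hU.par _ h ?_
        intro h4
        rw [h4, hs0] at b2
        exact a1 b2.symm
      · exact hout i hi hge
    · intro i hi hik hnc y hy hpy
      rcases Nat.lt_or_ge k i with hlt | hge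
      · have : i = k + 1 := by omega
        subst this
        exact absurd b4 hnc
      · obtain ⟨h1, h2, h3, h4, h5⟩ := hg' i hi hge
        rcases Nat.lt_or_ge i k with hlt | hge'
        · obtain ⟨h6, h7, h8, h9, h10⟩ := hg i hlt
          exact ⟨i + 1, by omega, by omega, T.one _ _ _ h1 h2 hy h6 hpy h10⟩
        · have hik' : i = k := by omega
          subst hik'
          exact ⟨i + 1, by omega, le_rfl, T.one _ _ _ h1 h2 hy b1 hpy b2⟩
    · intro i hi hik hQ
      rcases Nat.lt_or_ge k i with hlt | hge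
      · omega
      · exfalso
        obtain ⟨h1, h2, h3, h4, h5⟩ := hg' i hi hge
        rcases hQ with h | h
        · exact h2 h
        · exact hlg (h4.1 ((T.L_iff _).1 h).2.1)

/-- the data of n disjoint copies of U -/
structure Inv [Fintype ι] {V St : Type} (T : TE k ι) (G : SimpleGraph V)
    (Bd : St → V → V → Prop) (ok : ℕ → St → Prop) (U : Finset ι) (n : ℕ) (ψ : Fin n → ι → V)
    (r : ι → V) (a : ι → St) : Prop where
  adj : ∀ l x, x ∈ U → T.par x ∈ U → G.Adj (ψ l (T.par x)) (ψ l x)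
  rt : ∀ l x, x ∈ U → T.Qn x → G.Adj (r x) (ψ l x)
  inj : ∀ l l' x x', x ∈ U → x' ∈ U → ψ l x = ψ l' x' → l = l' ∧ x = x'
  pr : ∀ l x q, x ∈ U → q ∈ U → T.Qn q → ψ l x ≠ r q
  rr : ∀ q q', q ∈ U → q' ∈ U → T.Qn q → T.Qn q' → r q = r q' → q = q'
  bd : ∀ s, s ∈ U → T.Cn s → (∀ l, Bd (a s) (r s) (ψ l s)) ∧
    ∃ f, ok f (a s) ∧ Fintype.card ι + 1 ≤ f + U.card

/-- the new set -/
noncomputable def nU (U : Finset ι) (m : ℕ) (g : ℕ → ι) : Finset ι :=
  U ∪ (Finset.Icc 1 m).image g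

lemma mem_nU (U : Finset ι) (m : ℕ) (g : ℕ → ι) (x : ι) :
    x ∈ nU U m g ↔ x ∈ U ∨ ∃ i, 1 ≤ i ∧ i ≤ m ∧ g i = x := by
  unfold nU
  rw [Finset.mem_union, Finset.mem_image]
  simp only [Finset.mem_Icc, and_assoc]

lemma nU_card (T : TE k ι) (U : Finset ι) (s : ι) (m : ℕ) (g : ℕ → ι) (hg : Seg T U s m g) :
    U.card + 1 ≤ (nU U m g).card := by
  rw [← Finset.card_insert_of_notMem (hg.out 1 le_rfl hg.m1)]
  refine Finset.card_le_card ?_
  intro y hy
  rw [mem_nU]
  rcases Finset.mem_insert.1 hy with rfl | hy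
  · exact Or.inr ⟨1, le_rfl, hg.m1, rfl⟩
  · exact Or.inl hy

lemma nU_cl (T : TE k ι) (s0 : ι) (U : Finset ι) (hU : Cl T s0 U) (s : ι) (hs : s ∈ U) (m : ℕ)
    (g : ℕ → ι) (hg : Seg T U s m g) : Cl T s0 (nU U m g) := by
  refine ⟨?_, ?_, ?_, ?_⟩
  · rw [mem_nU]
    rintro (h | ⟨i, h1, h2, h3⟩)
    · exact hU.top h
    · exact hg.ne i h1 h2 h3
  · rw [mem_nU]
    exact Or.inl hU.mem
  · intro x hx hx0
    rw [mem_nU] at hx ⊢
    rcases hx with h | ⟨i, h1, h2, rfl⟩
    · exact Or.inl (hU.par x h hx0)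
    · obtain ⟨j, rfl⟩ : ∃ j, i = j + 1 := ⟨i - 1, by omega⟩
      rw [hg.par j (by omega)]
      rcases Nat.eq_zero_or_pos j with rfl | hj
      · rw [hg.g0]
        exact Or.inl hs
      · exact Or.inr ⟨j, hj, by omega, rfl⟩
  · intro x hx hxC y hy hpy
    rw [mem_nU] at hx ⊢
    rcases hx with h | ⟨i, h1, h2, rfl⟩
    · exact Or.inl (hU.fr x h hxC y hy hpy)
    · obtain ⟨j, h3, h4, h5⟩ := hg.ch i h1 h2 hxC y hy hpy
      exact Or.inr ⟨j, h3, h4, h5.symm⟩

/-- the update of the copies -/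
lemma update [Fintype ι] {V St : Type} (T : TE k ι) (G : SimpleGraph V)
    (Bd : St → V → V → Prop) (ok : ℕ → St → Prop) (s0 : ι) (U : Finset ι) (hU : Cl T s0 U)
    (hs0 : T.par s0 = T.top)
    (n : ℕ) (ψ : Fin n → ι → V) (r : ι → V) (a : ι → St) (hI : Inv T G Bd ok U n ψ r a)
    (s : ι) (hs : s ∈ U) (m : ℕ) (g : ℕ → ι) (hg : Seg T U s m g) (n' : ℕ)
    (P : Fin n' → ℕ → V) (ρ : V) (e : Fin n' → Fin n) (he : ∀ l, P l 0 = ψ (e l) s)
    (hadj : ∀ l i, i < m → G.Adj (P l i) (P l (i + 1)))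
    (hold : ∀ l i, 1 ≤ i → i ≤ m → ∀ l' x, x ∈ U → P l i ≠ ψ l' x)
    (hrold : ∀ l i, 1 ≤ i → i ≤ m → ∀ q, q ∈ U → T.Qn q → P l i ≠ r q)
    (hρ : ∀ l i, 1 ≤ i → i ≤ m → P l i ≠ ρ)
    (hPinj : ∀ l l' i i', i ≤ m → i' ≤ m → P l i = P l' i' → l = l' ∧ i = i')
    (hρold : ∀ l' x, x ∈ U → ρ ≠ ψ l' x) (hρr : ∀ q, q ∈ U → T.Qn q → ρ ≠ r q)
    (hroot : T.Qn (g m) → ∀ l, G.Adj ρ (P l m)) (a' : St)
    (ha' : T.Cn (g m) → (∀ l, Bd a' ρ (P l m)) ∧
      ∃ f, ok f a' ∧ Fintype.card ι + 1 ≤ f + (nU U m g).card) :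
    Inv T G Bd ok (nU U m g) n'
      (fun l x => if x ∈ U then ψ (e l) x else P l (if T.Cn x then k + 1 else T.ps x))
      (fun q => if q ∈ U then r q else ρ) (fun q => if q ∈ U then a q else a') := by
  have heinj : ∀ l l', e l = e l' → l = l' := by
    intro l l' h
    exact (hPinj l l' 0 0 (Nat.zero_le _) (Nat.zero_le _) (by rw [he, he, h])).1
  have hnew : ∀ l i, 1 ≤ i → i ≤ m → (if g i ∈ U then ψ (e l) (g i) else
      P l (if T.Cn (g i) then k + 1 else T.ps (g i))) = P l i := by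
    intro l i h1 h2
    rw [if_neg (hg.out i h1 h2), hg.ix i h1 h2]
  have hqm : ∀ i, 1 ≤ i → i ≤ m → T.Qn (g i) → g i = g m := fun i h1 h2 h3 => by
    rw [hg.qn i h1 h2 h3]
  refine ⟨?_, ?_, ?_, ?_, ?_, ?_⟩
  · intro l x hx hpx
    rw [mem_nU] at hx
    rcases hx with h | ⟨i, h1, h2, rfl⟩
    · have hx0 : x ≠ s0 := by
        intro h'
        rw [h', hs0, mem_nU] at hpx
        rcases hpx with h'' | ⟨i, h1, h2, h3⟩
        · exact hU.top h''
        · exact hg.ne i h1 h2 h3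
      have hp := hU.par x h hx0
      simp only [h, hp, if_true]
      exact hI.adj (e l) x h hp
    · obtain ⟨j, rfl⟩ : ∃ j, i = j + 1 := ⟨i - 1, by omega⟩
      show G.Adj (if T.par (g (j + 1)) ∈ U then ψ (e l) (T.par (g (j + 1))) else
        P l (if T.Cn (T.par (g (j + 1))) then k + 1 else T.ps (T.par (g (j + 1)))))
        (if g (j + 1) ∈ U then ψ (e l) (g (j + 1)) else
        P l (if T.Cn (g (j + 1)) then k + 1 else T.ps (g (j + 1))))
      rw [hnew l (j + 1) h1 h2, hg.par j (by omega)]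
      rcases Nat.eq_zero_or_pos j with rfl | hj
      · rw [hg.g0, if_pos hs, ← he]
        exact hadj l 0 (by omega)
      · rw [hnew l j hj (by omega)]
        exact hadj l j (by omega)
  · intro l x hx hQ
    rw [mem_nU] at hx
    rcases hx with h | ⟨i, h1, h2, rfl⟩
    · simp only [h, if_true]
      exact hI.rt (e l) x h hQ
    · show G.Adj (if g i ∈ U then r (g i) else ρ) (if g i ∈ U then ψ (e l) (g i) else
        P l (if T.Cn (g i) then k + 1 else T.ps (g i)))
      rw [hnew l i h1 h2, if_neg (hg.out i h1 h2)]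
      have := hg.qn i h1 h2 hQ
      subst this
      exact hroot hQ l
  · intro l l' x x' hx hx' h
    rw [mem_nU] at hx hx'
    rcases hx with hx | ⟨i, h1, h2, rfl⟩
    · rcases hx' with hx' | ⟨i', h1', h2', rfl⟩
      · rw [if_pos hx, if_pos hx'] at h
        obtain ⟨h3, h4⟩ := hI.inj _ _ _ _ hx hx' h
        exact ⟨heinj _ _ h3, h4⟩
      · rw [if_pos hx, hnew l' i' h1' h2'] at h
        exact absurd h.symm (hold l' i' h1' h2' (e l) x hx)
    · rcases hx' with hx' | ⟨i', h1', h2', rfl⟩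
      · rw [if_pos hx', hnew l i h1 h2] at h
        exact absurd h (hold l i h1 h2 (e l') x' hx')
      · rw [hnew l i h1 h2, hnew l' i' h1' h2'] at h
        obtain ⟨h3, h4⟩ := hPinj _ _ _ _ h2 h2' h
        exact ⟨h3, by rw [h4]⟩
  · intro l x q hx hq hQ
    rw [mem_nU] at hx hq
    rcases hx with hx | ⟨i, h1, h2, rfl⟩
    · rcases hq with hq | ⟨i', h1', h2', rfl⟩
      · rw [if_pos hx, if_pos hq]
        exact hI.pr _ _ _ hx hq hQ
      · rw [if_pos hx, if_neg (hg.out i' h1' h2')]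
        exact (hρold (e l) x hx).symm
    · rw [hnew l i h1 h2]
      rcases hq with hq | ⟨i', h1', h2', rfl⟩
      · rw [if_pos hq]
        exact hrold l i h1 h2 q hq hQ
      · rw [if_neg (hg.out i' h1' h2')]
        exact hρ l i h1 h2
  · intro q q' hq hq' hQ hQ' h
    rw [mem_nU] at hq hq'
    rcases hq with hq | ⟨i, h1, h2, rfl⟩
    · rcases hq' with hq' | ⟨i', h1', h2', rfl⟩
      · rw [if_pos hq, if_pos hq'] at h
        exact hI.rr _ _ hq hq' hQ hQ' h
      · rw [if_pos hq, if_neg (hg.out i' h1' h2')] at h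
        exact absurd h.symm (hρr q hq hQ)
    · rcases hq' with hq' | ⟨i', h1', h2', rfl⟩
      · rw [if_pos hq', if_neg (hg.out i h1 h2)] at h
        exact absurd h (hρr q' hq' hQ')
      · rw [hqm i h1 h2 hQ, hqm i' h1' h2' hQ']
  · intro q hq hC
    rw [mem_nU] at hq
    rcases hq with hq | ⟨i, h1, h2, rfl⟩
    · obtain ⟨h3, f, h4, h5⟩ := hI.bd q hq hC
      rw [if_pos hq, if_pos hq]
      refine ⟨fun l => by rw [if_pos hq]; exact h3 (e l), f, h4, h5.trans ?_⟩
      have := nU_card T U s m g hg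
      omega
    · have := hg.qn i h1 h2 (Or.inl hC)
      subst this
      obtain ⟨h3, h4⟩ := ha' hC
      rw [if_neg (hg.out i h1 h2), if_neg (hg.out i h1 h2)]
      refine ⟨fun l => ?_, h4⟩
      rw [hnew l i h1 h2]
      exact h3 l

/-- one step -/
lemma step [Fintype ι] (T : TE k ι) (hk : 1 ≤ k) (C ζ : ℕ) {V St : Type} (G : SimpleGraph V)
    (Bd : St → V → V → Prop) (ok : ℕ → St → Prop) (hM : Mv G k C ζ St Bd ok) (s0 : ι)
    (hs0 : T.par s0 = T.top) (huniq : ∀ x, x ≠ T.top → T.par x = T.top → x = s0)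
    (U : Finset ι) (hU : Cl T s0 U) (hne : U ≠ Finset.univ.erase T.top) (n' : ℕ)
    (hζ : (C * n') * Fintype.card ι + C * n' + Fintype.card ι ≤ ζ)
    (ψ : Fin (C * n') → ι → V) (r : ι → V) (a : ι → St)
    (hI : Inv T G Bd ok U (C * n') ψ r a) :
    ∃ U' : Finset ι, Cl T s0 U' ∧ U ⊂ U' ∧ ∃ (ψ' : Fin n' → ι → V) (r' : ι → V) (a' : ι → St),
      Inv T G Bd ok U' n' ψ' r' a' := by
  obtain ⟨s, m, g, hs, hsC, hg, hcase⟩ := exists_seg T hk s0 hs0 U hU hne huniq
  have hsub : U ⊂ nU U m g := by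
    rw [Finset.ssubset_iff_of_subset (fun x hx => (mem_nU U m g x).2 (Or.inl hx))]
    exact ⟨g 1, (mem_nU U m g _).2 (Or.inr ⟨1, le_rfl, hg.m1, rfl⟩), hg.out 1 le_rfl hg.m1⟩
  refine ⟨nU U m g, nU_cl T s0 U hU s hs m g hg, hsub, ?_⟩
  obtain ⟨hBd, f, hf1, hf2⟩ := hI.bd s hs hsC
  obtain ⟨S, hS⟩ : ∃ S : Finset V, S = Finset.univ.image (fun l => ψ l s) := ⟨_, rfl⟩
  obtain ⟨Z, hZ⟩ : ∃ Z : Finset V, Z = ((Finset.univ ×ˢ (U.erase s)).image
    (fun p : Fin (C * n') × ι => ψ p.1 p.2)) ∪ (U.filter (fun q => T.Qn q)).image r := ⟨_, rfl⟩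
  have hScard : S.card = C * n' := by
    rw [hS, Finset.card_image_of_injective _ (fun l l' h => (hI.inj l l' s s hs hs h).1),
      Finset.card_univ, Fintype.card_fin]
  have hZcard : Z.card ≤ (C * n') * Fintype.card ι + Fintype.card ι := by
    rw [hZ]
    refine (Finset.card_union_le _ _).trans (Nat.add_le_add ?_ ?_)
    · refine Finset.card_image_le.trans ?_
      rw [Finset.card_product, Finset.card_univ, Fintype.card_fin]
      exact Nat.mul_le_mul_left _ (Finset.card_le_univ _)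
    · exact Finset.card_image_le.trans (Finset.card_le_univ _)
  have hSmem : ∀ l, ψ l s ∈ S := fun l => by
    rw [hS]
    exact Finset.mem_image_of_mem _ (Finset.mem_univ l)
  have hZmem : ∀ l x, x ∈ U → x ≠ s → ψ l x ∈ Z := fun l x hx hxs => by
    rw [hZ]
    refine Finset.mem_union_left _ ?_
    exact Finset.mem_image.2 ⟨(l, x), Finset.mem_product.2 ⟨Finset.mem_univ _,
      Finset.mem_erase.2 ⟨hxs, hx⟩⟩, rfl⟩
  have hZr : ∀ q, q ∈ U → T.Qn q → r q ∈ Z := fun q hq hQ => by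
    rw [hZ]
    exact Finset.mem_union_right _ (Finset.mem_image_of_mem _ (Finset.mem_filter.2 ⟨hq, hQ⟩))
  have hold : ∀ z, z ∉ Z → z ∉ S → ∀ l' x, x ∈ U → z ≠ ψ l' x := by
    intro z h1 h2 l' x hx h
    by_cases hxs : x = s
    · subst hxs
      exact h2 (h ▸ hSmem l')
    · exact h1 (h ▸ hZmem l' x hx hxs)
  have hrold : ∀ z, z ∉ Z → ∀ q, q ∈ U → T.Qn q → z ≠ r q := by
    intro z h1 q hq hQ h
    exact h1 (h ▸ hZr q hq hQ)
  have hSB : ∀ z ∈ S, Bd (a s) (r s) z := by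
    intro z hz
    rw [hS] at hz
    obtain ⟨l, _, rfl⟩ := Finset.mem_image.1 hz
    exact hBd l
  have hidx : ∀ z ∈ S, ∃ l, z = ψ l s := by
    intro z hz
    rw [hS] at hz
    obtain ⟨l, _, rfl⟩ := Finset.mem_image.1 hz
    exact ⟨l, rfl⟩
  rcases hcase with ⟨hm, hL, hnC⟩ | ⟨hm, hC⟩
  · -- a leg
    obtain ⟨ρ, h1, h2, P, h3, h4⟩ := hM.leg f (a s) hf1 (r s) S Z n' hSB
      (hZr s hs (Or.inl hsC)) (by rw [hScard]) (by omega) (by omega)
    choose e he using fun l => hidx _ (h3 l).1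
    subst hm
    refine ⟨_, _, _, update T G Bd ok s0 U hU hs0 (C * n') ψ r a hI s hs m g hg n' P ρ e he
      (fun l i hi => (h3 l).2.2.1 i hi.le)
      (fun l i hi hi' => hold _ ((h3 l).2.2.2 i hi hi').1 ((h3 l).2.2.2 i hi hi').2.1)
      (fun l i hi hi' => hrold _ ((h3 l).2.2.2 i hi hi').1)
      (fun l i hi hi' => ((h3 l).2.2.2 i hi hi').2.2)
      (fun l l' i i' hi hi' h => h4 l l' i i' hi hi' h)
      (hold ρ h1 h2) (hrold ρ h1) (fun _ l => ?_) (a s) (fun h => absurd h hnC)⟩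
    have h5 := (h3 l).2.2.1 m le_rfl
    rw [(h3 l).2.1] at h5
    exact h5.symm
  · -- a connection
    have hUc : U.card + 1 ≤ Fintype.card ι := by
      have h1 : (insert T.top U).card ≤ Fintype.card ι := Finset.card_le_univ _
      rwa [Finset.card_insert_of_notMem hU.top] at h1
    obtain ⟨f', rfl⟩ : ∃ f', f = f' + 1 := ⟨f - 1, by omega⟩
    obtain ⟨a', h0, w', h1, h2, P, h3, h4⟩ := hM.core f' (a s) hf1 (r s) S Z n' hSB
      (hZr s hs (Or.inl hsC)) (by rw [hScard]) (by omega) (by omega)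
    choose e he using fun l => hidx _ (h3 l).1
    subst hm
    refine ⟨_, _, _, update T G Bd ok s0 U hU hs0 (C * n') ψ r a hI s hs (k + 1) g hg n' P w' e he
      (fun l i hi => (h3 l).2.2.1 i (by omega))
      (fun l i hi hi' => hold _ ((h3 l).2.2.2 i hi hi').1 ((h3 l).2.2.2 i hi hi').2.1)
      (fun l i hi hi' => hrold _ ((h3 l).2.2.2 i hi hi').1)
      (fun l i hi hi' => ((h3 l).2.2.2 i hi hi').2.2)
      (fun l l' i i' hi hi' h => h4 l l' i i' hi hi' h)
      (hold w' h1 h2) (hrold w' h1) (fun _ l => hM.adj a' _ _ (h3 l).2.1) a'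
      (fun _ => ⟨fun l => (h3 l).2.1, f', h0, ?_⟩)⟩
    have := nU_card T U s (k + 1) g hg
    omega

/-- the iteration -/
lemma iter [Fintype ι] (T : TE k ι) (hk : 1 ≤ k) (t C ζ : ℕ) (hC : 0 < C) {V St : Type}
    (G : SimpleGraph V) (Bd : St → V → V → Prop) (ok : ℕ → St → Prop)
    (hM : Mv G k C ζ St Bd ok) (s0 : ι)
    (hs0 : T.par s0 = T.top) (huniq : ∀ x, x ≠ T.top → T.par x = T.top → x = s0)
    (hζ : (C ^ Fintype.card ι * t) * Fintype.card ι + C ^ Fintype.card ι * t +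
      Fintype.card ι ≤ ζ) : ∀ (m : ℕ), m ≤ Fintype.card ι →
    ∀ U : Finset ι, Cl T s0 U → ((Finset.univ.erase T.top) \ U).card ≤ m →
    ∀ (ψ : Fin (C ^ m * t) → ι → V) (r : ι → V) (a : ι → St),
      Inv T G Bd ok U (C ^ m * t) ψ r a →
      ∃ (ψ' : Fin t → ι → V) (r' : ι → V) (a' : ι → St),
        Inv T G Bd ok (Finset.univ.erase T.top) t ψ' r' a' := by
  intro m
  induction m with
  | zero =>
    intro _ U hU hc ψ r a hI
    have h1 : U = Finset.univ.erase T.top := by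
      refine Finset.Subset.antisymm ?_ ?_
      · intro x hx
        exact Finset.mem_erase.2 ⟨fun h' => hU.top (h' ▸ hx), Finset.mem_univ _⟩
      · rw [Nat.le_zero, Finset.card_eq_zero, Finset.sdiff_eq_empty_iff_subset] at hc
        exact hc
    subst h1
    have h2 : C ^ 0 * t = t := by rw [pow_zero, one_mul]
    exact ⟨fun l => ψ (Fin.cast h2.symm l), r, a, ⟨fun l => hI.adj _, fun l => hI.rt _,
      fun l l' x x' hx hx' h => by
        obtain ⟨h3, h4⟩ := hI.inj _ _ _ _ hx hx' h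
        exact ⟨Fin.cast_injective _ h3, h4⟩,
      fun l => hI.pr _, hI.rr, fun s hs hsC => ⟨fun l => (hI.bd s hs hsC).1 _,
        (hI.bd s hs hsC).2⟩⟩⟩
  | succ m ih =>
    intro hm U hU hc ψ r a hI
    by_cases hne : U = Finset.univ.erase T.top
    · subst hne
      have h2 : t ≤ C ^ (m + 1) * t := Nat.le_mul_of_pos_left _ (by positivity)
      exact ⟨fun l => ψ (Fin.castLE h2 l), r, a, ⟨fun l => hI.adj _, fun l => hI.rt _,
        fun l l' x x' hx hx' h => by
          obtain ⟨h3, h4⟩ := hI.inj _ _ _ _ hx hx' h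
          exact ⟨Fin.castLE_injective h2 h3, h4⟩,
        fun l => hI.pr _, hI.rr, fun s hs hsC => ⟨fun l => (hI.bd s hs hsC).1 _,
          (hI.bd s hs hsC).2⟩⟩⟩
    · have h1 : C ^ (m + 1) * t = C * (C ^ m * t) := by rw [pow_succ]; ring
      have h2 : C ^ (m + 1) * t ≤ C ^ Fintype.card ι * t :=
        Nat.mul_le_mul_right _ (Nat.pow_le_pow_right hC hm)
      have h3 : (C * (C ^ m * t)) * Fintype.card ι + C * (C ^ m * t) + Fintype.card ι ≤ ζ := by
        rw [← h1]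
        refine le_trans ?_ hζ
        exact Nat.add_le_add_right (Nat.add_le_add (Nat.mul_le_mul_right _ h2) h2) _
      have hI' : Inv T G Bd ok U (C * (C ^ m * t)) (fun l => ψ (Fin.cast h1.symm l)) r a :=
        ⟨fun l => hI.adj _, fun l => hI.rt _,
        fun l l' x x' hx hx' h => by
          obtain ⟨h3, h4⟩ := hI.inj _ _ _ _ hx hx' h
          exact ⟨Fin.cast_injective _ h3, h4⟩,
        fun l => hI.pr _, hI.rr, fun s hs hsC => ⟨fun l => (hI.bd s hs hsC).1 _,
          (hI.bd s hs hsC).2⟩⟩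
      obtain ⟨U', hU', hss, ψ', r', a', hI''⟩ := step T hk C ζ G Bd ok hM s0 hs0 huniq U hU hne
        (C ^ m * t) h3 _ r a hI'
      refine ih (by omega) U' hU' ?_ ψ' r' a' hI''
      obtain ⟨x, hx, hxU⟩ := Finset.exists_of_ssubset hss
      have h4 : ((Finset.univ.erase T.top) \ U').card < ((Finset.univ.erase T.top) \ U).card := by
        refine Finset.card_lt_card ?_
        rw [Finset.ssubset_iff_of_subset (Finset.sdiff_subset_sdiff (Finset.Subset.refl _) hss.1)]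
        refine ⟨x, ?_, fun h => (Finset.mem_sdiff.1 h).2 hx⟩
        exact Finset.mem_sdiff.2 ⟨Finset.mem_erase.2 ⟨fun h' => hU'.top (h' ▸ hx),
          Finset.mem_univ _⟩, hxU⟩
      omega

theorem emb_holds : S_EMB := by
  intro k hk ι _ T t C ht hC hex
  refine ⟨(C ^ Fintype.card ι * t) * Fintype.card ι + C ^ Fintype.card ι * t +
      Fintype.card ι, ?_⟩
  intro V G St Bd ok hM hini
  -- the child of the top
  obtain ⟨x0, hx0⟩ := hex
  have hx0t : x0 ≠ T.top := fun h => T.top_C (h ▸ hx0)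
  obtain ⟨s0, hs0, hmin⟩ := Finset.exists_min_image (Finset.univ.erase T.top) T.dp
    ⟨x0, Finset.mem_erase.2 ⟨hx0t, Finset.mem_univ _⟩⟩
  have hs0t : s0 ≠ T.top := (Finset.mem_erase.1 hs0).1
  have hps0 : T.par s0 = T.top := by
    by_contra h
    have h1 := hmin (T.par s0) (Finset.mem_erase.2 ⟨h, Finset.mem_univ _⟩)
    have := T.dp_par s0 hs0t
    omega
  have hs0C : T.Cn s0 := T.topc s0 hs0t hps0
  have huniq : ∀ x, x ≠ T.top → T.par x = T.top → x = s0 := fun x hx hpx =>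
    T.top1 x s0 hx hs0t hpx hps0
  obtain ⟨a, w, S, h1, h2, h3, h4⟩ := hini (C ^ Fintype.card ι * t) (by omega)
  have hU : Cl T s0 {s0} := by
    refine ⟨fun h => hs0t (Finset.mem_singleton.1 h).symm, Finset.mem_singleton_self _, ?_, ?_⟩
    · intro x hx hx'
      exact absurd (Finset.mem_singleton.1 hx) hx'
    · intro x hx hxC
      rw [Finset.mem_singleton.1 hx] at hxC
      exact absurd hs0C hxC
  let en : Fin (C ^ Fintype.card ι * t) → V := fun l => (S.equivFin.symm (Fin.cast h2.symm l)).1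
  have hen : ∀ l, en l ∈ S := fun l => (S.equivFin.symm (Fin.cast h2.symm l)).2
  have heninj : Function.Injective en := by
    intro l l' h
    have h5 := S.equivFin.symm.injective (Subtype.ext h)
    exact Fin.cast_injective _ h5
  have hI : Inv T G Bd ok {s0} (C ^ Fintype.card ι * t) (fun l _ => en l) (fun _ => w)
      (fun _ => a) := by
    refine ⟨?_, ?_, ?_, ?_, ?_, ?_⟩
    · intro l x hx hpx
      rw [Finset.mem_singleton] at hx hpx
      rw [hx, hps0] at hpx
      exact absurd hpx.symm hs0t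
    · intro l x _ _
      exact hM.adj a w _ (h4 _ (hen l))
    · intro l l' x x' hx hx' h
      rw [Finset.mem_singleton] at hx hx'
      exact ⟨heninj h, by rw [hx, hx']⟩
    · intro l x q _ _ _ h
      exact h3 (h ▸ hen l)
    · intro q q' hq hq' _ _ _
      rw [Finset.mem_singleton] at hq hq'
      rw [hq, hq']
    · intro s _ _
      exact ⟨fun l => h4 _ (hen l), Fintype.card ι, h1, by rw [Finset.card_singleton]⟩
  obtain ⟨ψ, r, a', hF⟩ := iter T hk t C _ hC G Bd ok hM s0 hps0 huniq le_rfl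
    (Fintype.card ι) le_rfl {s0} hU (Finset.card_le_univ _) _ _ _ hI
  refine ⟨r s0, ψ, r, ?_, ?_, fun _ => trivial, ?_, ?_, ?_, ?_, ?_⟩
  · intro q hq hpq
    have h5 : T.par q = T.top := by
      by_contra h
      exact hpq (Finset.mem_erase.2 ⟨h, Finset.mem_univ _⟩)
    rw [huniq q (Finset.mem_erase.1 hq).1 h5]
  · intro l
    exact ⟨fun x hx hQ => hF.rt l x hx hQ, fun x hx hpx => hF.adj l x hx hpx⟩
  · intro l l' x x' hx hx' h
    exact hF.inj l l' x x' hx hx' h
  · intro l x q hx hq hQ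
    exact hF.pr l x q hx hq hQ
  · intro q q' hq hq' hQ hQ' h
    exact hF.rr q q' hq hq' hQ hQ' h
  · intro l x _
    exact Finset.notMem_empty _
  · intro q _ _ _
    exact Finset.notMem_empty _

end Pool.Agent.TH476.KK.EmbB
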