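import Pool.Agent.TH476.KHub

/-!
# The pruned family of rich paths (`S_RST`)
-/

set_option autoImplicit false

open Classical

namespace Pool.Agent.TH476.KK.RstB

open Pool.Agent.TH476

/-- the extremal argument -/
lemma extremal {α β τ : Type} (A : Finset α) (I : Finset τ) (f : τ → α → β) (w : τ → β → ℕ)
    (c : ℕ) (hA : ∑ t ∈ I, ∑ b ∈ A.image (f t), w t b < c * A.card) :
    ∃ S ⊆ A, S.Nonempty ∧ ∀ t ∈ I, ∀ p ∈ S, w t (f t p) ≤
      c * (S.filter (fun p' => f t p' = f t p)).card := by
  obtain ⟨S, hS, hmax⟩ := Finset.exists_max_image A.powerset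
    (fun S => (c * S.card : ℤ) - (∑ t ∈ I, ∑ b ∈ S.image (f t), w t b : ℕ))
    ⟨A, Finset.mem_powerset_self A⟩
  refine ⟨S, Finset.mem_powerset.1 hS, ?_, ?_⟩
  · rw [Finset.nonempty_iff_ne_empty]
    rintro rfl
    have h1 := hmax A (Finset.mem_powerset_self A)
    simp only [Finset.card_empty, Finset.image_empty, Finset.sum_empty, Finset.sum_const_zero,
      Nat.cast_zero, mul_zero, sub_zero] at h1
    have h2 : ((∑ t ∈ I, ∑ b ∈ A.image (f t), w t b : ℕ) : ℤ) < (c * A.card : ℤ) := by
      exact_mod_cast hA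
    linarith
  · intro t ht p hp
    have h1 := hmax (S.filter (fun p' => ¬ f t p' = f t p)) (Finset.mem_powerset.2
      ((Finset.filter_subset _ _).trans (Finset.mem_powerset.1 hS)))
    have h2 : (∑ t' ∈ I, ∑ b ∈ (S.filter (fun p' => ¬ f t p' = f t p)).image (f t'), w t' b) +
        w t (f t p) ≤ ∑ t' ∈ I, ∑ b ∈ S.image (f t'), w t' b := by
      rw [← Finset.add_sum_erase I _ ht, ← Finset.add_sum_erase I
        (fun t' => ∑ b ∈ S.image (f t'), w t' b) ht]
      have h3 : (∑ b ∈ (S.filter (fun p' => ¬ f t p' = f t p)).image (f t), w t b) +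
          w t (f t p) ≤ ∑ b ∈ S.image (f t), w t b := by
        rw [← Finset.sum_erase_add _ _ (Finset.mem_image_of_mem (f t) hp)]
        refine Nat.add_le_add_right (Finset.sum_le_sum_of_subset ?_) _
        intro b hb
        obtain ⟨p', hp', rfl⟩ := Finset.mem_image.1 hb
        obtain ⟨h4, h5⟩ := Finset.mem_filter.1 hp'
        exact Finset.mem_erase.2 ⟨h5, Finset.mem_image_of_mem _ h4⟩
      have h6 : (∑ t' ∈ I.erase t, ∑ b ∈ (S.filter (fun p' => ¬ f t p' = f t p)).image (f t'),
          w t' b) ≤ ∑ t' ∈ I.erase t, ∑ b ∈ S.image (f t'), w t' b :=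
        Finset.sum_le_sum fun t' _ => Finset.sum_le_sum_of_subset
          (Finset.image_subset_image (Finset.filter_subset _ _))
      omega
    have h7 := Finset.card_filter_add_card_filter_not (s := S) (fun p' => f t p' = f t p)
    have h8 : ((∑ t' ∈ I, ∑ b ∈ (S.filter (fun p' => ¬ f t p' = f t p)).image (f t'),
        w t' b : ℕ) : ℤ) + (w t (f t p) : ℕ) ≤
        (∑ t' ∈ I, ∑ b ∈ S.image (f t'), w t' b : ℕ) := by
      exact_mod_cast h2
    have h9 : ((S.filter (fun p' => f t p' = f t p)).card : ℤ) +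
        (S.filter (fun p' => ¬ f t p' = f t p)).card = S.card := by
      exact_mod_cast h7
    have h10 : (w t (f t p) : ℤ) ≤ c * (S.filter (fun p' => f t p' = f t p)).card := by
      have h11 : (c : ℤ) * S.card = c * (S.filter (fun p' => f t p' = f t p)).card +
          c * (S.filter (fun p' => ¬ f t p' = f t p)).card := by
        rw [← h9]; ring
      linarith
    exact_mod_cast h10

section walks

variable {V : Type} [Fintype V]

/-- walks of length n -/
noncomputable def Wk (G : SimpleGraph V) (n : ℕ) : Finset (Fin (n + 1) → V) :=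
  Finset.univ.filter (fun g => ∀ i : Fin n, G.Adj (g i.castSucc) (g i.succ))

lemma wk_card (G : SimpleGraph V) (D K : ℕ) (hG : AR G D K) : ∀ n : ℕ,
    (Wk G n).card ≤ Fintype.card V * (K * D) ^ n := by
  intro n
  induction n with
  | zero =>
    rw [pow_zero, mul_one]
    refine (Finset.card_le_univ _).trans ?_
    rw [Fintype.card_fun, Fintype.card_fin, zero_add, pow_one]
  | succ n ih =>
    have h1 : (Wk G (n + 1)).card ≤ (K * D) * ((Wk G (n + 1)).image (fun g => Fin.init g)).card := by
      refine Finset.card_le_mul_card_image _ _ fun b hb => ?_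
      have h2 : (((Wk G (n + 1)).filter (fun g => Fin.init g = b))).card ≤
          (nb G (b (Fin.last n))).card := by
        refine Finset.card_le_card_of_injOn (fun g => g (Fin.last (n + 1))) ?_ ?_
        · intro g hg
          obtain ⟨h3, h4⟩ := Finset.mem_filter.1 hg
          have h5 := (Finset.mem_filter.1 h3).2 (Fin.last n)
          rw [Finset.mem_coe, mem_nb, ← h4]
          exact h5
        · intro g hg g' hg' h
          have h3 := (Finset.mem_filter.1 hg).2
          have h4 := (Finset.mem_filter.1 hg').2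
          funext i
          refine Fin.lastCases h (fun j => ?_) i
          exact congrFun (h3.trans h4.symm) j
      exact h2.trans (hG.hi _)
    refine h1.trans ?_
    calc (K * D) * ((Wk G (n + 1)).image (fun g => Fin.init g)).card
        ≤ (K * D) * (Wk G n).card := by
          refine Nat.mul_le_mul_left _ (Finset.card_le_card ?_)
          intro b hb
          obtain ⟨g, hg, rfl⟩ := Finset.mem_image.1 hb
          refine Finset.mem_filter.2 ⟨Finset.mem_univ _, fun i => ?_⟩
          have h2 := (Finset.mem_filter.1 hg).2 i.castSucc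
          exact h2
      _ ≤ (K * D) * (Fintype.card V * (K * D) ^ n) := Nat.mul_le_mul_left _ ih
      _ = _ := by rw [pow_succ]; ring

/-- the restriction to an interval -/
noncomputable def key (l i j : ℕ) (p : Fin (l + 1) → V) : ℕ → Option V :=
  fun t => if i ≤ t ∧ t ≤ j then some (ex l p t) else none

omit [Fintype V] in
lemma key_eq (l i j : ℕ) (p p' : Fin (l + 1) → V) :
    key l i j p = key l i j p' ↔ ∀ m, i ≤ m → m ≤ j → ex l p m = ex l p' m := by
  constructor
  · intro h m h1 h2
    have h3 := congrFun h m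
    unfold key at h3
    rw [if_pos ⟨h1, h2⟩, if_pos ⟨h1, h2⟩] at h3
    exact Option.some.inj h3
  · intro h
    funext t
    unfold key
    by_cases h1 : i ≤ t ∧ t ≤ j
    · rw [if_pos h1, if_pos h1, h t h1.1 h1.2]
    · rw [if_neg h1, if_neg h1]

/-- the ends -/
noncomputable def key2 (l : ℕ) (p : Fin (l + 1) → V) : ℕ → Option V :=
  fun t => if t = 0 ∨ t = l then some (ex l p t) else none

omit [Fintype V] in
lemma key2_eq (l : ℕ) (p p' : Fin (l + 1) → V) :
    key2 l p = key2 l p' ↔ ex l p 0 = ex l p' 0 ∧ ex l p l = ex l p' l := by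
  constructor
  · intro h
    constructor
    · have h3 := congrFun h 0
      unfold key2 at h3
      rw [if_pos (Or.inl rfl), if_pos (Or.inl rfl)] at h3
      exact Option.some.inj h3
    · have h3 := congrFun h l
      unfold key2 at h3
      rw [if_pos (Or.inr rfl), if_pos (Or.inr rfl)] at h3
      exact Option.some.inj h3
  · rintro ⟨h1, h2⟩
    funext t
    unfold key2
    by_cases h3 : t = 0 ∨ t = l
    · rw [if_pos h3, if_pos h3]
      rcases h3 with rfl | rfl
      · rw [h1]
      · rw [h2]
    · rw [if_neg h3, if_neg h3]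

lemma key_card (G : SimpleGraph V) (D K : ℕ) (hG : AR G D K) (l i j : ℕ) (hij : i ≤ j)
    (hj : j ≤ l) (A : Finset (Fin (l + 1) → V))
    (hA : ∀ p ∈ A, ∀ m, m < l → G.Adj (ex l p m) (ex l p (m + 1))) :
    (A.image (key l i j)).card ≤ Fintype.card V * (K * D) ^ (j - i) := by
  refine le_trans ?_ (wk_card G D K hG (j - i))
  have h1 : A.image (key l i j) ⊆ (Wk G (j - i)).image (fun (g : Fin (j - i + 1) → V) (t : ℕ) =>
      if i ≤ t ∧ t ≤ j then some (ex (j - i) g (t - i)) else none) := by
    intro b hb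
    obtain ⟨p, hp, rfl⟩ := Finset.mem_image.1 hb
    refine Finset.mem_image.2 ⟨fun s => ex l p (i + s.1), ?_, ?_⟩
    · refine Finset.mem_filter.2 ⟨Finset.mem_univ _, fun s => ?_⟩
      have h2 := hA p hp (i + s.1) (by have := s.2; omega)
      exact h2
    · funext t
      unfold key
      by_cases h2 : i ≤ t ∧ t ≤ j
      · rw [if_pos h2, if_pos h2]
        unfold ex
        have h3 : min (i + min (t - i) (j - i)) l = min t l := by omega
        simp only [h3]
      · rw [if_neg h2, if_neg h2]
  exact (Finset.card_le_card h1).trans Finset.card_image_le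

end walks

section paths

variable {V : Type}

lemma ex_rev (l : ℕ) (p : Fin (l + 1) → V) (m : ℕ) (hm : m ≤ l) :
    ex l (fun i => p i.rev) m = ex l p (l - m) := by
  unfold ex
  show p (Fin.rev ⟨min m l, _⟩) = p ⟨min (l - m) l, _⟩
  refine congrArg p (Fin.ext ?_)
  rw [Fin.val_rev]
  show l + 1 - (min m l + 1) = min (l - m) l
  omega

lemma pthV_congr (G : SimpleGraph V) (B : ℕ → V → V → Prop) (j : ℕ) (p q : ℕ → V)
    (h : ∀ i, i ≤ j → p i = q i) (hp : PthV G B j p) : PthV G B j q := by
  obtain ⟨h1, h2, h3⟩ := hp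
  refine ⟨fun i hi => ?_, fun i i' hi hi' he => ?_, fun a b hab hb h4 h5 => ?_⟩
  · rw [← h i hi.le, ← h (i + 1) hi]
    exact h1 i hi
  · rw [← h i hi, ← h i' hi'] at he
    exact h2 i i' hi hi' he
  · rw [← h a (by omega), ← h b hb]
    exact h3 a b hab hb h4 h5

lemma pthV_rev (G : SimpleGraph V) (B : ℕ → V → V → Prop) (hB : BSy B) (j : ℕ) (p : ℕ → V)
    (hp : PthV G B j p) : PthV G B j (fun i => p (j - i)) := by
  obtain ⟨h1, h2, h3⟩ := hp
  refine ⟨fun i hi => ?_, fun i i' hi hi' he => ?_, fun a b hab hb h4 h5 h6 => ?_⟩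
  · have h4 := h1 (j - (i + 1)) (by omega)
    rw [show j - (i + 1) + 1 = j - i by omega] at h4
    exact h4.symm
  · have := h2 (j - i) (j - i') (by omega) (by omega) he
    omega
  · have h7 := h3 (j - b) (j - a) (by omega) (by omega) (by omega) (by omega)
    rw [show j - a - (j - b) = b - a by omega] at h7
    exact h7 (hB _ _ _ h6)

end paths

theorem rst_holds : S_RST := by
  intro l K Q hl hK hQ
  obtain ⟨q, hq⟩ : ∃ q, q = 2 * (l + 1) ^ 2 * K ^ l * Q + 1 := ⟨_, rfl⟩
  refine ⟨q, by omega, ?_⟩
  intro M'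
  refine ⟨2 * M', ?_⟩
  intro V _ _ G D B hG hD hB hR hA
  obtain ⟨A, hAd⟩ : ∃ A, A = RCs G B l := ⟨_, rfl⟩
  rw [← hAd] at hA
  have hAm : ∀ p, p ∈ A ↔ PthV G B l (ex l p) ∧ B l (ex l p 0) (ex l p l) := by
    intro p
    rw [hAd]
    unfold RCs
    simp
  have hArev : ∀ p ∈ A, (fun i => p i.rev) ∈ A := by
    intro p hp
    rw [hAm] at hp ⊢
    refine ⟨?_, ?_⟩
    · refine pthV_congr G B l (fun i => ex l p (l - i)) _ (fun i hi => ?_)
        (pthV_rev G B hB l _ hp.1)
      rw [ex_rev l p i hi]
    · rw [ex_rev l p 0 (by omega), ex_rev l p l le_rfl, Nat.sub_zero, Nat.sub_self]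
      exact hB _ _ _ hp.2
  -- many members with the same ends
  have hAM : ∀ p ∈ A, 2 * M' ≤ (A.filter (fun p' => key2 l p' = key2 l p)).card := by
    intro p hp
    obtain ⟨P, hP1, hP2⟩ := hR _ _ ((hAm p).1 hp).2
    have h1 : ∀ t, ∀ m, m ≤ l → ex l (fun i : Fin (l + 1) => P t i.1) m = P t m := by
      intro t m hm
      unfold ex
      show P t (min m l) = P t m
      rw [min_eq_left hm]
    have h2 : Function.Injective (fun (t : Fin (2 * M')) => (fun i : Fin (l + 1) => P t i.1)) := by
      intro t t' h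
      by_contra hne
      have h3 : P t 1 = P t' 1 := by
        rw [← h1 t 1 (by omega), ← h1 t' 1 (by omega)]
        exact congrArg (fun z => ex l z 1) h
      exact hP2 t t' 1 1 hne le_rfl (by omega) le_rfl (by omega) h3
    have h4 : (Finset.univ.image (fun (t : Fin (2 * M')) => (fun i : Fin (l + 1) => P t i.1))).card
        = 2 * M' := by
      rw [Finset.card_image_of_injective _ h2, Finset.card_univ, Fintype.card_fin]
    rw [← h4]
    refine Finset.card_le_card ?_
    intro g hg
    obtain ⟨t, _, rfl⟩ := Finset.mem_image.1 hg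
    obtain ⟨h5, h6, h7⟩ := hP1 t
    refine Finset.mem_filter.2 ⟨?_, ?_⟩
    · rw [hAm]
      refine ⟨pthV_congr G B l (P t) _ (fun i hi => (h1 t i hi).symm) h7, ?_⟩
      rw [h1 t 0 (by omega), h1 t l le_rfl, h5, h6]
      exact ((hAm p).1 hp).2
    · rw [key2_eq, h1 t 0 (by omega), h1 t l le_rfl]
      exact ⟨h5, h6⟩
  -- the extremal set
  obtain ⟨T0, hT0⟩ : ∃ T0 : Finset (ℕ × ℕ), T0 = ((Finset.range (l + 1)) ×ˢ
    (Finset.range (l + 1))).filter (fun z => z.1 ≤ z.2) := ⟨_, rfl⟩
  have hT0m : ∀ z ∈ T0, z.1 ≤ z.2 ∧ z.2 ≤ l := by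
    intro z hz
    rw [hT0] at hz
    obtain ⟨h1, h2⟩ := Finset.mem_filter.1 hz
    have := Finset.mem_range.1 (Finset.mem_product.1 h1).2
    exact ⟨h2, by omega⟩
  have hT0c : T0.card ≤ (l + 1) ^ 2 := by
    rw [hT0]
    refine (Finset.card_filter_le _ _).trans ?_
    rw [Finset.card_product, Finset.card_range, sq]
  obtain ⟨f, hf⟩ : ∃ f : Option (ℕ × ℕ) → (Fin (l + 1) → V) → (ℕ → Option V),
      f = fun t => match t with
        | none => key2 l
        | some z => key l z.1 z.2 := ⟨_, rfl⟩
  obtain ⟨w, hw⟩ : ∃ w : Option (ℕ × ℕ) → (ℕ → Option V) → ℕ,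
      w = fun t b => match t with
        | none => q * (A.filter (fun p' => key2 l p' = b)).card
        | some z => 2 * D ^ (l - (z.2 - z.1)) := ⟨_, rfl⟩
  have hN : 0 < Fintype.card V := Fintype.card_pos
  have hsum : ∑ t ∈ Finset.insertNone T0, ∑ b ∈ A.image (f t), w t b < (2 * q) * A.card := by
    rw [Finset.sum_insertNone]
    have h1 : ∑ b ∈ A.image (f none), w none b = q * A.card := by
      rw [hf, hw]
      show ∑ b ∈ A.image (key2 l), q * (A.filter (fun p' => key2 l p' = b)).card = q * A.card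
      rw [← Finset.mul_sum, ← Finset.card_eq_sum_card_image]
    have h2 : ∑ z ∈ T0, ∑ b ∈ A.image (f (some z)), w (some z) b ≤
        (l + 1) ^ 2 * (2 * (Fintype.card V * (K ^ l * D ^ l))) := by
      have h3 : ∀ z ∈ T0, ∑ b ∈ A.image (f (some z)), w (some z) b ≤
          2 * (Fintype.card V * (K ^ l * D ^ l)) := by
        intro z hz
        obtain ⟨h4, h5⟩ := hT0m z hz
        rw [hf, hw]
        show ∑ b ∈ A.image (key l z.1 z.2), 2 * D ^ (l - (z.2 - z.1)) ≤ _
        rw [Finset.sum_const, smul_eq_mul]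
        have h6 := key_card G D K hG l z.1 z.2 h4 h5 A (fun p hp m hm => ((hAm p).1 hp).1.1 m hm)
        have h7 : D ^ l = D ^ (z.2 - z.1) * D ^ (l - (z.2 - z.1)) := by
          rw [← pow_add]
          congr 1
          omega
        have h8 : K ^ (z.2 - z.1) ≤ K ^ l := Nat.pow_le_pow_right hK (by omega)
        calc (A.image (key l z.1 z.2)).card * (2 * D ^ (l - (z.2 - z.1)))
            ≤ (Fintype.card V * (K * D) ^ (z.2 - z.1)) * (2 * D ^ (l - (z.2 - z.1))) :=
              Nat.mul_le_mul_right _ h6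
          _ = 2 * (Fintype.card V * (K ^ (z.2 - z.1) * D ^ l)) := by
              rw [h7, mul_pow]; ring
          _ ≤ _ := Nat.mul_le_mul_left _ (Nat.mul_le_mul_left _ (Nat.mul_le_mul_right _ h8))
      refine (Finset.sum_le_card_nsmul T0 _ _ h3).trans ?_
      rw [smul_eq_mul]
      exact Nat.mul_le_mul_right _ hT0c
    have h9 : (l + 1) ^ 2 * (2 * (Fintype.card V * (K ^ l * D ^ l))) < q * A.card := by
      refine Nat.lt_of_mul_lt_mul_left (a := Q) ?_
      have h10 : 0 < Fintype.card V * D ^ l := by positivity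
      calc Q * ((l + 1) ^ 2 * (2 * (Fintype.card V * (K ^ l * D ^ l))))
          = (2 * (l + 1) ^ 2 * K ^ l * Q) * (Fintype.card V * D ^ l) := by ring
        _ < q * (Fintype.card V * D ^ l) := by
            rw [hq]
            exact Nat.mul_lt_mul_of_pos_right (Nat.lt_succ_self _) h10
        _ ≤ q * (Q * A.card) := Nat.mul_le_mul_left _ hA
        _ = Q * (q * A.card) := by ring
    rw [h1]
    have h11 : 2 * q * A.card = q * A.card + q * A.card := by ring
    omega
  obtain ⟨S, hSA, hSne, hS⟩ := extremal A (Finset.insertNone T0) f w (2 * q) hsum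
  have hcls : ∀ p ∈ S, ∀ i j, i ≤ j → j ≤ l → D ^ (l - (j - i)) ≤
      q * (S.filter (fun p' => ∀ m, i ≤ m → m ≤ j → ex l p' m = ex l p m)).card := by
    intro p hp i j hij hjl
    have h1 := hS (some (i, j)) (Finset.some_mem_insertNone.2 (by
      rw [hT0]
      exact Finset.mem_filter.2 ⟨Finset.mem_product.2 ⟨Finset.mem_range.2 (by omega),
        Finset.mem_range.2 (by omega)⟩, hij⟩)) p hp
    rw [hf, hw] at h1
    have h2 : 2 * D ^ (l - (j - i)) ≤
        2 * q * (S.filter (fun p' => key l i j p' = key l i j p)).card := h1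
    have h3 : S.filter (fun p' => key l i j p' = key l i j p) =
        S.filter (fun p' => ∀ m, i ≤ m → m ≤ j → ex l p' m = ex l p m) := by
      ext p'
      rw [Finset.mem_filter, Finset.mem_filter, key_eq]
    rw [h3, mul_assoc] at h2
    omega
  have hpr : ∀ p ∈ S, M' ≤ (S.filter (fun p' => ex l p' 0 = ex l p 0 ∧
      ex l p' l = ex l p l)).card := by
    intro p hp
    have h1 := hS none (Finset.none_mem_insertNone) p hp
    rw [hf, hw] at h1
    have h2 : q * (A.filter (fun p' => key2 l p' = key2 l p)).card ≤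
        2 * q * (S.filter (fun p' => key2 l p' = key2 l p)).card := h1
    have h3 : S.filter (fun p' => key2 l p' = key2 l p) =
        S.filter (fun p' => ex l p' 0 = ex l p 0 ∧ ex l p' l = ex l p l) := by
      ext p'
      rw [Finset.mem_filter, Finset.mem_filter, key2_eq]
    rw [h3] at h2
    have h4 := hAM p (hSA hp)
    have h5 : q * (2 * M') ≤ q * (2 * (S.filter (fun p' => ex l p' 0 = ex l p 0 ∧
        ex l p' l = ex l p l)).card) := by
      calc q * (2 * M') ≤ q * (A.filter (fun p' => key2 l p' = key2 l p)).card :=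
            Nat.mul_le_mul_left _ h4
        _ ≤ _ := h2
        _ = _ := by ring
    have h6 := Nat.le_of_mul_le_mul_left h5 (by omega)
    omega
  -- closing under reversal
  have hrr : ∀ p : Fin (l + 1) → V,
      (fun (i : Fin (l + 1)) => (fun (i : Fin (l + 1)) => p i.rev) i.rev) = p := by
    intro p
    funext i
    show p i.rev.rev = p i
    rw [Fin.rev_rev]
  have hrinj : Function.Injective (fun (p : Fin (l + 1) → V) =>
      (fun (i : Fin (l + 1)) => p i.rev)) := by
    intro p p' h
    have h1 : (fun (i : Fin (l + 1)) => (fun (i : Fin (l + 1)) => p i.rev) i.rev) =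
        (fun (i : Fin (l + 1)) => (fun (i : Fin (l + 1)) => p' i.rev) i.rev) :=
      congrArg (fun (z : Fin (l + 1) → V) => (fun (i : Fin (l + 1)) => z i.rev)) h
    rw [hrr p, hrr p'] at h1
    exact h1
  obtain ⟨S', hS'⟩ : ∃ S' : Finset (Fin (l + 1) → V), S' =
    S.image (fun p => (fun (i : Fin (l + 1)) => p i.rev)) := ⟨_, rfl⟩
  have hS'm : ∀ p : Fin (l + 1) → V, p ∈ S' ↔ (fun (i : Fin (l + 1)) => p i.rev) ∈ S := by
    intro p
    rw [hS', Finset.mem_image]
    constructor
    · rintro ⟨p', hp', rfl⟩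
      rw [hrr p']
      exact hp'
    · intro h
      exact ⟨_, h, hrr p⟩
  refine ⟨S ∪ S', ?_, ?_, ?_, ?_, ?_⟩
  · obtain ⟨p, hp⟩ := hSne
    exact ⟨p, Finset.mem_union_left _ hp⟩
  · intro p hp
    rw [← hAd]
    rcases Finset.mem_union.1 hp with h | h
    · exact hSA h
    · rw [hS'm] at h
      have h1 := hArev _ (hSA h)
      rw [hrr p] at h1
      exact h1
  · intro p hp
    rcases Finset.mem_union.1 hp with h | h
    · refine Finset.mem_union_right _ ?_
      rw [hS'm, hrr p]
      exact h
    · exact Finset.mem_union_left _ ((hS'm p).1 h)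
  · intro p hp i j hij hjl
    rcases Finset.mem_union.1 hp with h | h
    · refine (hcls p h i j hij hjl).trans (Nat.mul_le_mul_left _ (Finset.card_le_card ?_))
      exact Finset.filter_subset_filter _ Finset.subset_union_left
    · have h1 := hcls _ ((hS'm p).1 h) (l - j) (l - i) (by omega) (by omega)
      rw [show l - i - (l - j) = j - i by omega] at h1
      refine h1.trans (Nat.mul_le_mul_left _ ?_)
      rw [← Finset.card_image_of_injective _ hrinj]
      refine Finset.card_le_card ?_
      intro g hg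
      obtain ⟨p', hp', rfl⟩ := Finset.mem_image.1 hg
      obtain ⟨h2, h3⟩ := Finset.mem_filter.1 hp'
      refine Finset.mem_filter.2 ⟨Finset.mem_union_right _ ?_, ?_⟩
      · rw [hS'm, hrr p']
        exact h2
      · intro m hm1 hm2
        rw [ex_rev l p' m (by omega), h3 (l - m) (by omega) (by omega),
          ex_rev l p (l - m) (by omega), show l - (l - m) = m by omega]
  · intro p hp
    rcases Finset.mem_union.1 hp with h | h
    · refine (hpr p h).trans (Finset.card_le_card ?_)
      exact Finset.filter_subset_filter _ Finset.subset_union_left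
    · have h1 := hpr _ ((hS'm p).1 h)
      refine h1.trans ?_
      rw [← Finset.card_image_of_injective _ hrinj]
      refine Finset.card_le_card ?_
      intro g hg
      obtain ⟨p', hp', rfl⟩ := Finset.mem_image.1 hg
      obtain ⟨h2, h3, h4⟩ := Finset.mem_filter.1 hp'
      rw [ex_rev l p 0 (by omega), Nat.sub_zero] at h3
      rw [ex_rev l p l le_rfl, Nat.sub_self] at h4
      refine Finset.mem_filter.2 ⟨Finset.mem_union_right _ ?_, ?_, ?_⟩
      · rw [hS'm, hrr p']
        exact h2
      · rw [ex_rev l p' 0 (by omega), Nat.sub_zero, h4]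
      · rw [ex_rev l p' l le_rfl, Nat.sub_self, h3]

end Pool.Agent.TH476.KK.RstB
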